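import Pool.Agent.Helper14.EXC.Main

/-! Module C : the Gaussian framework (interface). -/

set_option autoImplicit false

namespace Pool.Agent.Helper87.EX

open MeasureTheory Complex

theorem exp_q_int {n : ℕ} {c : ℝ} (hc : 0 < c) :
    Integrable (fun m : E n => Real.exp (-c * q m)) volume :=
  Pool.Agent.Helper14.EXC.exp_q_int hc

theorem Z_pos (n : ℕ) : 0 < Z n := Pool.Agent.Helper14.EXC.Z_pos n

theorem gam_prob (n : ℕ) : IsProbabilityMeasure (gam n) := Pool.Agent.Helper14.EXC.gam_prob n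

/-- left multiplication by an element of `SL_3` preserves the Lebesgue measure -/
theorem act_mp {n : ℕ} (g : G3) :
    MeasurePreserving (fun m : E n => act (g : Matrix (Fin 3) (Fin 3) ℂ) m) volume volume :=
  Pool.Agent.Helper14.EXC.act_mp g

/-- `HH` as an integral against the Lebesgue measure -/
theorem HH_cv {k n : ℕ} (F : (Fin k → E n) → ℝ) (x : Fin k → G3) :
    HH F x = ∫ m : Fin k → E n,
      F m * ∏ i, rho (act (((x i)⁻¹ : G3) : Matrix (Fin 3) (Fin 3) ℂ) (m i)) :=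
  Pool.Agent.Helper14.EXC.HH_cv F x

theorem HH_int {k n : ℕ} {F : (Fin k → E n) → ℝ} (hG : GI F) (x : Fin k → G3) :
    Integrable (fun m : Fin k → E n => F (fun i => act (x i : Matrix (Fin 3) (Fin 3) ℂ) (m i)))
      (Measure.pi (fun _ : Fin k => gam n)) :=
  Pool.Agent.Helper14.EXC.HH_int hG x

theorem HH_left {k n : ℕ} {F : (Fin k → E n) → ℝ} (hF : Inv F) : LInv (HH F) :=
  Pool.Agent.Helper14.EXC.HH_left hF

theorem HH_right {k n : ℕ} {F : (Fin k → E n) → ℝ} (x u : Fin k → G3) (hu : ∀ i, IsU (u i)) :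
    HH F (fun i => x i * u i) = HH F x :=
  Pool.Agent.Helper14.EXC.HH_right x u hu

theorem HH_cont {k n : ℕ} {F : (Fin k → E n) → ℝ} (hG : GI F) : Continuous (HH F) :=
  Pool.Agent.Helper14.EXC.HH_cont hG

theorem HH_dd {k n : ℕ} {F : (Fin k → E n) → ℝ} (hG : GI F) (x : Fin (k + 1) → G3) :
    dd (HH F) x = HH (dd F) x :=
  Pool.Agent.Helper14.EXC.HH_dd hG x

theorem HH_alter {k n : ℕ} {F : (Fin k → E n) → ℝ} (hF : Alter F) : Alter (HH F) :=
  Pool.Agent.Helper14.EXC.HH_alter hF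

theorem HH_le {k n : ℕ} {F : (Fin k → E n) → ℝ} {C : ℝ}
    (h : ∀ᵐ m : Fin k → E n ∂volume, |F m| ≤ C) (x : Fin k → G3) : |HH F x| ≤ C :=
  Pool.Agent.Helper14.EXC.HH_le h x

theorem HH_congr {k n : ℕ} {F F' : (Fin k → E n) → ℝ} (h : F =ᵐ[volume] F') : HH F = HH F' :=
  Pool.Agent.Helper14.EXC.HH_congr h

/-- almost every configuration is generic -/
theorem ae_Gen (k : ℕ) : ∀ᵐ m : Fin k → E 1 ∂volume, Gen (fun i => m i 0) :=
  Pool.Agent.Helper14.EXC.ae_Gen k

end Pool.Agent.Helper87.EX
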