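import Pool.Agent.Helper87.EX.B
import Pool.Agent.Helper87.EX.C
import Pool.Agent.Helper95.EXG.G12

/-! Module Y : growth of the prism of `h = HH F1` (interface). -/

set_option autoImplicit false

namespace Pool.Agent.Helper87.EX

open MeasureTheory Complex Filter
open scoped Topology

theorem F1_GI : GI F1 := Pool.Agent.Helper95.EXG.F1_GI'

theorem growth (s : Fin 4 → Matrix.SpecialLinearGroup (Fin 2) ℂ) :
    Tendsto (fun T : ℝ => Pr (HH F1) (aT T) (fun i => emb (s i)) / T) atTop
      (𝓝 (-2 * HH F3 (fun i => emb (s i)))) := Pool.Agent.Helper95.EXG.growth' s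

end Pool.Agent.Helper87.EX
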