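import Pool.Agent.Helper87.EX.A
import Pool.Agent.Helper93.EX1.Main
import Pool.Agent.H99.EXB.Psi

/-! Module B : brackets, the function `Psi` and Theorem 1 (interface). -/

set_option autoImplicit false

namespace Pool.Agent.Helper87.EX

open MeasureTheory Complex

/-- abstract bracket: antisymmetric with the Pluecker relation -/
structure Brk {ι : Type*} (b : ι → ι → ℂ) : Prop where
  anti : ∀ i j, b i j = -b j i
  plu : ∀ i j k l, b i j * b k l - b i k * b j l + b i l * b j k = 0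

theorem isBW : Helper93.EX1.IsBW BW where
  inv := BW_inv
  sub := BW_one_sub
  five := fun x y x0 x1 y0 y1 _ => by
    have h := BW_five x0 x1 y0 y1
    have e1 : (1 - x : ℂ) ≠ 0 := fun e => x1 (by linear_combination -e)
    have e2 : (1 - y : ℂ) ≠ 0 := fun e => y1 (by linear_combination -e)
    have h1 : BW (x * (1 - y) / (y * (1 - x))) = -BW ((1 - x⁻¹) / (1 - y⁻¹)) := by
      rw [← BW_inv, inv_div]
      congr 1
      have e3 : 1 - x⁻¹ = -(1 - x) / x := by field_simp; ring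
      have e4 : 1 - y⁻¹ = -(1 - y) / y := by field_simp; ring
      rw [e3, e4]
      field_simp
    have h2 : BW ((1 - y) / (1 - x)) = -BW ((1 - x) / (1 - y)) := by
      rw [← BW_inv, inv_div]
    rw [h1, h2] at h
    linear_combination h

theorem crD_swap01 {ι : Type*} {b : ι → ι → ℂ} (hb : Brk b) (i j k l : ι) :
    crD b j i k l = -crD b i j k l := by
  unfold crD
  rw [← BW_inv, inv_div]
  congr 1
  rw [mul_comm (b j k), mul_comm (b j l)]

theorem crD_swap12 {ι : Type*} {b : ι → ι → ℂ} (hb : Brk b) (i j k l : ι) :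
    crD b i k j l = -crD b i j k l := by
  have hcb : b k j = - b j k := hb.anti k j
  by_cases h1 : b i l * b j k = 0
  · unfold crD
    rw [hcb, mul_neg, h1, neg_zero, div_zero, div_zero, isBW.zero, neg_zero]
  · unfold crD
    rw [← BW_one_sub]
    congr 1
    rw [hcb, mul_neg, div_neg, eq_comm, ← sub_eq_zero]
    have h2 : b i j * b k l = b i k * b j l - b i l * b j k := by
      linear_combination hb.plu i j k l
    rw [h2, sub_div, div_self h1]
    ring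

theorem crD_swap23 {ι : Type*} {b : ι → ι → ℂ} (hb : Brk b) (i j k l : ι) :
    crD b i j l k = -crD b i j k l := by
  unfold crD
  rw [← BW_inv, inv_div]

/-- five term relation; the bracket of the last two points may vanish -/
theorem crD_five {ι : Type*} {b : ι → ι → ℂ} (hb : Brk b) (i0 i1 i2 i3 i4 : ι)
    (h01 : b i0 i1 ≠ 0) (h02 : b i0 i2 ≠ 0) (h03 : b i0 i3 ≠ 0) (h04 : b i0 i4 ≠ 0)
    (h12 : b i1 i2 ≠ 0) (h13 : b i1 i3 ≠ 0) (h14 : b i1 i4 ≠ 0)
    (h23 : b i2 i3 ≠ 0) (h24 : b i2 i4 ≠ 0) :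
    crD b i1 i2 i3 i4 - crD b i0 i2 i3 i4 + crD b i0 i1 i3 i4 - crD b i0 i1 i2 i4
      + crD b i0 i1 i2 i3 = 0 :=
  Helper93.EX1.five_bracket isBW b i0 i1 i2 i3 i4 h01 h02 h03 h04 h12 h13 h14 h23 h24
    (hb.plu i0 i1 i2 i3) (hb.plu i0 i1 i2 i4)

/-- the brackets seen from `e` -/
theorem dt_brk (e : Fin 3 → ℂ) : Brk (fun x y => dt e x y) :=
  ⟨fun x y => Helper93.EX1.dt_swap23 e y x, fun x y z w => Helper93.EX1.dt_pluecker e x y z w⟩

/-- `VV` of the `p`-th vector of a configuration of five vectors -/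
noncomputable def DD (v : Fin 5 → Fin 3 → ℂ) (p : Fin 5) : ℝ :=
  VV (v p) (v (p.succAbove 0)) (v (p.succAbove 1)) (v (p.succAbove 2)) (v (p.succAbove 3))

theorem conic (v : Fin 5 → Fin 3 → ℂ) (hv : Gen v) :
    ∑ p : Fin 5, (-1 : ℝ) ^ (p : ℕ) * DD v p = 0 := by
  have key := Helper93.EX1.conic isBW v hv
  rw [Fin.sum_univ_five]
  have d0 : DD v 0 = Helper93.EX1.V BW (v 0) (v 1) (v 2) (v 3) (v 4) := rfl
  have d1 : DD v 1 = Helper93.EX1.V BW (v 1) (v 0) (v 2) (v 3) (v 4) := rfl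
  have d2 : DD v 2 = Helper93.EX1.V BW (v 2) (v 0) (v 1) (v 3) (v 4) := rfl
  have d3 : DD v 3 = Helper93.EX1.V BW (v 3) (v 0) (v 1) (v 2) (v 4) := rfl
  have d4 : DD v 4 = Helper93.EX1.V BW (v 4) (v 0) (v 1) (v 2) (v 3) := rfl
  have n2 : ((2 : Fin 5) : ℕ) = 2 := rfl
  have n3 : ((3 : Fin 5) : ℕ) = 3 := rfl
  have n4 : ((4 : Fin 5) : ℕ) = 4 := rfl
  rw [d0, d1, d2, d3, d4, n2, n3, n4, Fin.val_zero, Fin.val_one]
  linear_combination key

/-- `Psi` as a sum over ordered pairs `(p, q)`, `q = p.succAbove r` -/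
theorem Psi_eq (v : Fin 5 → Fin 3 → ℂ) :
    Psi v = -(1 / 3) * ∑ p : Fin 5, ∑ r : Fin 4, (-1 : ℝ) ^ (p : ℕ) * DD v p *
      LL (v (p.succAbove (r.succAbove 0))) (v (p.succAbove (r.succAbove 1)))
        (v (p.succAbove (r.succAbove 2))) := Pool.Agent.H99.EXB.Psi_eq v

theorem Psi_alter : Alter Psi := Helper93.EX1.alt_alter _

theorem Psi_act (g : Matrix (Fin 3) (Fin 3) ℂ) (hg : g.det = 1) (v : Fin 5 → Fin 3 → ℂ) :
    Psi (fun i => g.mulVec (v i)) = Psi v := Pool.Agent.H99.EXB.Psi_act g hg v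

theorem Psi_le : ∃ C : ℝ, 0 ≤ C ∧ ∀ v : Fin 5 → Fin 3 → ℂ,
    |Psi v| ≤ C * ∑ i : Fin 5, ∑ j : Fin 5, ∑ k : Fin 5,
      (if i < j ∧ j < k then |LL (v i) (v j) (v k)| else 0) := Pool.Agent.H99.EXB.Psi_le

theorem Psi_meas : Measurable Psi := Pool.Agent.H99.EXB.Psi_meas

/-- Theorem 1 : `T = dd Psi` is bounded. -/
theorem T_bdd : ∃ C : ℝ, 0 ≤ C ∧ ∀ v : Fin 6 → Fin 3 → ℂ, Gen v → |dd Psi v| ≤ C := by
  obtain ⟨C, hC, hb⟩ := BW_log_bdd
  refine ⟨8 * C, by positivity, fun v hv => ?_⟩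
  have h1 : dd Psi v = _ := Helper93.EX1.dd_Psi isBW v hv
  rw [h1, abs_mul]
  have h2 := Helper93.EX1.alt_abs_le (F := fun w : Fin 6 → Fin 3 → ℂ =>
    BW (Helper93.EX1.r3 (w 0) (w 1) (w 2) (w 3) (w 4) (w 5)) *
      Real.log ‖Helper93.EX1.r3 (w 0) (w 1) (w 2) (w 3) (w 4) (w 5)‖) (v := v) (C := C)
    (fun σ => hb _)
  have h3 : ((6 : ℕ).factorial : ℝ) = 720 := by norm_num [Nat.factorial]
  rw [h3] at h2
  rw [abs_of_pos (by norm_num : (0 : ℝ) < 1 / 90)]
  linarith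

/-- `T` depends only on the points of the projective plane -/
theorem T_scale (v : Fin 6 → Fin 3 → ℂ) (hv : Gen v) (c : Fin 6 → ℂ) (hc : ∀ i, c i ≠ 0) :
    dd Psi (fun i => c i • v i) = dd Psi v := by
  have hdt : ∀ (x y z : Fin 3 → ℂ) (p q r : ℂ), dt (p • x) (q • y) (r • z) =
      p * q * r * dt x y z := by
    intro x y z p q r
    unfold dt
    simp only [Pi.smul_apply, smul_eq_mul]
    ring
  have hv' : Gen (fun i => c i • v i) := by
    intro i j k h1 h2 h3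
    show dt (c i • v i) (c j • v j) (c k • v k) ≠ 0
    rw [hdt]
    exact mul_ne_zero (mul_ne_zero (mul_ne_zero (hc i) (hc j)) (hc k)) (hv i j k h1 h2 h3)
  have h1 : dd Psi v = _ := Helper93.EX1.dd_Psi isBW v hv
  have h2 : dd Psi (fun i => c i • v i) = _ := Helper93.EX1.dd_Psi isBW _ hv'
  rw [h1, h2]
  congr 1
  unfold Alt
  refine Finset.sum_congr rfl fun σ _ => ?_
  congr 1
  have hw := Helper93.EX1.gen_comp hv σ
  set w := fun i => v (σ i) with hw'
  set u := fun i => c (σ i) with hu'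
  have hu : ∀ i, u i ≠ 0 := fun i => hc (σ i)
  have nz : ∀ i j k : Fin 6, i ≠ j → i ≠ k → j ≠ k → dt (w i) (w j) (w k) ≠ 0 := hw
  have hr : Helper93.EX1.r3 (u 0 • w 0) (u 1 • w 1) (u 2 • w 2) (u 3 • w 3) (u 4 • w 4)
      (u 5 • w 5) = Helper93.EX1.r3 (w 0) (w 1) (w 2) (w 3) (w 4) (w 5) := by
    unfold Helper93.EX1.r3
    rw [hdt, hdt, hdt, hdt, hdt, hdt]
    have a1 := nz 0 1 4 (by decide) (by decide) (by decide)
    have a2 := nz 1 2 5 (by decide) (by decide) (by decide)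
    have a3 := nz 2 0 3 (by decide) (by decide) (by decide)
    have u0 := hu 0
    have u1 := hu 1
    have u2 := hu 2
    have u3 := hu 3
    have u4 := hu 4
    have u5 := hu 5
    field_simp
  show BW (Helper93.EX1.r3 (u 0 • w 0) (u 1 • w 1) (u 2 • w 2) (u 3 • w 3) (u 4 • w 4)
      (u 5 • w 5)) * Real.log ‖Helper93.EX1.r3 (u 0 • w 0) (u 1 • w 1) (u 2 • w 2) (u 3 • w 3)
      (u 4 • w 4) (u 5 • w 5)‖ = _
  rw [hr]

theorem dd_alter {n : ℕ} {X : Type*} (F : (Fin n → X) → ℝ) (hF : Alter F) : Alter (dd F) :=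
  Pool.Agent.H99.EXB.dd_alter F hF

/-- reduction to alternating cochains -/
theorem alt_reduce {n : ℕ} {X : Type*} (F : (Fin n → X) → ℝ) (hF : Alter (dd F)) (v : Fin (n + 1) → X) :
    dd (fun w => (1 / (n.factorial : ℝ)) * Alt F w) v = dd F v :=
  Pool.Agent.H99.EXB.alt_reduce F hF v

end Pool.Agent.Helper87.EX
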