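import Mathlib

/-!
# Project EX : the comparison map of SL_3(C) is not injective in degree 5 (definitions)

See `Pool/Agent/Helper87/EX/Proof.lean` for the complete proof in words.
-/

set_option autoImplicit false

namespace Pool.Agent.Helper87.EX

open MeasureTheory Complex
open scoped BigOperators

/-! ### the Bloch-Wigner dilogarithm -/

/-- Bloch-Wigner function on `ℂ` (it equals `Im Li_2(z) + arg(1 - z) log|z|`). -/
noncomputable def BW (z : ℂ) : ℝ :=
  Complex.arg (1 - z) * Real.log ‖z‖ - ∫ s in (0:ℝ)..1, Complex.arg (1 - (s : ℂ) * z) / s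

/-- `BW` of the cross ratio of four indices, for an abstract bracket `b`. -/
noncomputable def crD {ι : Type*} (b : ι → ι → ℂ) (i j k l : ι) : ℝ :=
  BW (b i k * b j l / (b i l * b j k))

/-! ### configurations of vectors of `ℂ^3` -/

/-- determinant of three vectors -/
def dt (a b c : Fin 3 → ℂ) : ℂ :=
  a 0 * (b 1 * c 2 - b 2 * c 1) - a 1 * (b 0 * c 2 - b 2 * c 0) + a 2 * (b 0 * c 1 - b 1 * c 0)

/-- `BW` of the cross ratio of `a, b, c, d` seen from `e` -/
noncomputable def VV (e a b c d : Fin 3 → ℂ) : ℝ :=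
  BW (dt e a c * dt e b d / (dt e a d * dt e b c))

/-- `log |det|` -/
noncomputable def LL (a b c : Fin 3 → ℂ) : ℝ := Real.log ‖dt a b c‖

/-- alternation (no normalisation) -/
noncomputable def Alt {n : ℕ} {X : Type*} (F : (Fin n → X) → ℝ) (v : Fin n → X) : ℝ :=
  ∑ σ : Equiv.Perm (Fin n), ((Equiv.Perm.sign σ : ℤ) : ℝ) * F (fun i => v (σ i))

/-- homogeneous coboundary -/
noncomputable def dd {n : ℕ} {X : Type*} (F : (Fin n → X) → ℝ) (v : Fin (n + 1) → X) : ℝ :=
  ∑ i : Fin (n + 1), (-1 : ℝ) ^ (i : ℕ) * F (fun j => v (Fin.succAbove i j))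

/-- the function `Psi` of five vectors of `ℂ^3` -/
noncomputable def Psi : (Fin 5 → Fin 3 → ℂ) → ℝ :=
  Alt (fun v => -(1 / 18) * (VV (v 0) (v 1) (v 2) (v 3) (v 4) * LL (v 2) (v 3) (v 4)))

/-- genericity of a configuration: all determinants of three distinct vectors are non zero -/
def Gen {n : ℕ} (v : Fin n → Fin 3 → ℂ) : Prop :=
  ∀ i j k : Fin n, i ≠ j → i ≠ k → j ≠ k → dt (v i) (v j) (v k) ≠ 0

/-! ### the Gaussian framework -/

/-- the group -/
abbrev G3 := Matrix.SpecialLinearGroup (Fin 3) ℂ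

/-- `n` columns of `ℂ^3` -/
abbrev E (n : ℕ) := Fin n → Fin 3 → ℂ

/-- left action of a matrix on `n` columns -/
def act (g : Matrix (Fin 3) (Fin 3) ℂ) {n : ℕ} (m : E n) : E n := fun j => g.mulVec (m j)

/-- squared Euclidean norm -/
noncomputable def q {n : ℕ} (m : E n) : ℝ := ∑ j, ∑ i, Complex.normSq (m j i)

/-- normalisation -/
noncomputable def Z (n : ℕ) : ℝ := ∫ m : E n, Real.exp (-q m)

/-- Gaussian density -/
noncomputable def rho {n : ℕ} (m : E n) : ℝ := Real.exp (-q m) / Z n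

/-- standard Gaussian probability measure on `E n` -/
noncomputable def gam (n : ℕ) : Measure (E n) :=
  (volume : Measure (E n)).withDensity (fun m => ENNReal.ofReal (rho m))

/-- the Gaussian transform of `F` -/
noncomputable def HH {k n : ℕ} (F : (Fin k → E n) → ℝ) (g : Fin k → G3) : ℝ :=
  ∫ m : Fin k → E n, F (fun i => act (g i : Matrix (Fin 3) (Fin 3) ℂ) (m i))
    ∂(Measure.pi (fun _ : Fin k => gam n))

/-- integrability against all Gaussian weights -/
def GI {k n : ℕ} (F : (Fin k → E n) → ℝ) : Prop :=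
  ∀ c : ℝ, 0 < c → Integrable (fun m : Fin k → E n => F m * Real.exp (-c * ∑ i, q (m i))) volume

/-- invariance under the group -/
def Inv {k n : ℕ} (F : (Fin k → E n) → ℝ) : Prop :=
  ∀ (g : G3) (m : Fin k → E n), F (fun i => act (g : Matrix (Fin 3) (Fin 3) ℂ) (m i)) = F m

/-- alternating functions -/
def Alter {k : ℕ} {X : Type*} (F : (Fin k → X) → ℝ) : Prop :=
  ∀ (i j : Fin k) (m : Fin k → X), i ≠ j → F (fun l => m (Equiv.swap i j l)) = -F m

/-- left invariance of a cochain on a group -/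
def LInv {k : ℕ} {H : Type*} [Mul H] (c : (Fin k → H) → ℝ) : Prop :=
  ∀ (g : H) (x : Fin k → H), c (fun i => g * x i) = c x

/-- the kernel of `h` -/
noncomputable def F1 (v : Fin 5 → E 1) : ℝ := Psi (fun i => v i 0)

/-- bracket of the last two coordinates -/
def b2 (x y : Fin 3 → ℂ) : ℂ := x 1 * y 2 - x 2 * y 1

/-- the kernel of the averaged volume cocycle of the block `SL_2(ℂ)` -/
noncomputable def F3 (v : Fin 4 → E 1) : ℝ :=
  BW (b2 (v 0 0) (v 2 0) * b2 (v 1 0) (v 3 0) / (b2 (v 0 0) (v 3 0) * b2 (v 1 0) (v 2 0)))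

/-! ### group elements -/

/-- a member of `SU(3)` -/
def IsU (u : G3) : Prop :=
  (u : Matrix (Fin 3) (Fin 3) ℂ) * (u : Matrix (Fin 3) (Fin 3) ℂ).conjTranspose = 1

/-- `diag(e^(2t), e^(-t), e^(-t))` -/
noncomputable def aT (t : ℝ) : G3 :=
  ⟨!![(Real.exp (2 * t) : ℂ), 0, 0; 0, (Real.exp (-t) : ℂ), 0; 0, 0, (Real.exp (-t) : ℂ)], by
    rw [Matrix.det_fin_three]
    simp only [Matrix.of_apply, Matrix.cons_val', Matrix.cons_val_zero, Matrix.cons_val_one,
      Matrix.cons_val_two, Matrix.empty_val', Matrix.cons_val_fin_one, Matrix.head_cons,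
      Matrix.tail_cons, Matrix.head_fin_const]
    rw [← Complex.ofReal_mul, ← Complex.ofReal_mul]
    simp only [mul_zero, zero_mul, sub_zero, add_zero]
    rw [← Real.exp_add, ← Real.exp_add]
    norm_num [show 2 * t + -t + -t = 0 by ring]⟩

/-- embedding of `SL_2(ℂ)` as the lower block -/
def emb (s : Matrix.SpecialLinearGroup (Fin 2) ℂ) : G3 :=
  ⟨!![1, 0, 0; 0, s 0 0, s 0 1; 0, s 1 0, s 1 1], by
    have h := s.det_coe
    rw [Matrix.det_fin_two] at h
    rw [Matrix.det_fin_three]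
    simp only [Matrix.of_apply, Matrix.cons_val', Matrix.cons_val_zero, Matrix.cons_val_one,
      Matrix.cons_val_two, Matrix.empty_val', Matrix.cons_val_fin_one, Matrix.head_cons,
      Matrix.tail_cons, Matrix.head_fin_const]
    linear_combination h⟩

/-- entrywise complex conjugation on `SL_2(ℂ)` -/
noncomputable def cj (s : Matrix.SpecialLinearGroup (Fin 2) ℂ) : Matrix.SpecialLinearGroup (Fin 2) ℂ :=
  Matrix.SpecialLinearGroup.map (starRingEnd ℂ) s

/-- the four group elements `1, exp(ε E_1), exp(ε E_2), exp(ε E_3)` of `SL_2(ℂ)`, Pauli matrices -/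
noncomputable def sg (ε : ℝ) : Fin 4 → Matrix.SpecialLinearGroup (Fin 2) ℂ :=
  ![1,
    ⟨!![(Real.cosh ε : ℂ), (Real.sinh ε : ℂ); (Real.sinh ε : ℂ), (Real.cosh ε : ℂ)], by
      rw [Matrix.det_fin_two_of, ← Complex.ofReal_mul, ← Complex.ofReal_mul, ← Complex.ofReal_sub]
      have h := Real.cosh_sq ε
      rw [show Real.cosh ε * Real.cosh ε - Real.sinh ε * Real.sinh ε = 1 by nlinarith]
      simp⟩,
    ⟨!![(Real.cosh ε : ℂ), -(Real.sinh ε : ℂ) * I; (Real.sinh ε : ℂ) * I, (Real.cosh ε : ℂ)], by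
      rw [Matrix.det_fin_two_of]
      have h := Real.cosh_sq ε
      have h2 : (Real.cosh ε : ℂ) ^ 2 = (Real.sinh ε : ℂ) ^ 2 + 1 := by exact_mod_cast h
      linear_combination h2 + (Real.sinh ε : ℂ) ^ 2 * Complex.I_sq⟩,
    ⟨!![(Real.exp ε : ℂ), 0; 0, (Real.exp (-ε) : ℂ)], by
      rw [Matrix.det_fin_two_of, ← Complex.ofReal_mul, ← Real.exp_add]
      simp⟩]

/-! ### prisms -/

/-- the `i`-th simplex of the prism over `s` in the direction `a` :
`(s_0, ..., s_i, a s_i, ..., a s_3)` -/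
def pri {H : Type*} [Mul H] (a : H) (s : Fin 4 → H) (i : Fin 4) : Fin 5 → H :=
  fun j => if (j : ℕ) ≤ i then s (i.predAbove j) else a * s (i.predAbove j)

/-- the prism operator on `4`-cochains -/
noncomputable def Pr {H : Type*} [Mul H] (c : (Fin 5 → H) → ℝ) (a : H) (s : Fin 4 → H) : ℝ :=
  ∑ i : Fin 4, (-1 : ℝ) ^ (i : ℕ) * c (pri a s i)

end Pool.Agent.Helper87.EX
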