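import Pool.Agent.Helper87.EX.Defs
import Pool.Agent.Helper46.BW.Five
import Pool.Agent.Helper53.BWp.Bdd

/-! Module A : the Bloch-Wigner dilogarithm (interface, proved). -/

set_option autoImplicit false

namespace Pool.Agent.Helper87.EX

open MeasureTheory Complex

theorem BW_eq_D : BW = Pool.Agent.Helper46.BW.D := rfl

theorem BW_ofReal (x : ℝ) : BW (x : ℂ) = 0 := Pool.Agent.Helper46.BW.D_ofReal x

theorem BW_conj (z : ℂ) : BW ((starRingEnd ℂ) z) = -BW z := Pool.Agent.Helper46.BW.D_conj z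

theorem BW_inv (z : ℂ) : BW z⁻¹ = -BW z := Pool.Agent.Helper46.BW.D_inv z

theorem BW_one_sub (z : ℂ) : BW (1 - z) = -BW z := Pool.Agent.Helper46.BW.D_one_sub z

theorem BW_bdd : ∃ C : ℝ, 0 ≤ C ∧ ∀ z : ℂ, |BW z| ≤ C :=
  Pool.Agent.Helper53.BWp.D_bdd Pool.Agent.Helper46.BW.D_inv

theorem BW_log_bdd : ∃ C : ℝ, 0 ≤ C ∧ ∀ z : ℂ, |BW z * Real.log ‖z‖| ≤ C :=
  Pool.Agent.Helper53.BWp.D_log_bdd Pool.Agent.Helper46.BW.D_inv

theorem BW_cont {z : ℂ} (_h0 : z ≠ 0) (_h1 : z ≠ 1) : ContinuousAt BW z :=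
  Pool.Agent.Helper46.BW.D_continuous.continuousAt

/-- `BW` is continuous everywhere -/
theorem BW_continuous : Continuous BW := Pool.Agent.Helper46.BW.D_continuous

theorem BW_meas : Measurable BW := Pool.Agent.Helper46.BW.D_measurable

theorem BW_pos {z : ℂ} (h : 0 < z.im) : 0 < BW z :=
  Pool.Agent.Helper53.BWp.D_pos Pool.Agent.Helper46.BW.D_inv h

theorem BW_five {a b : ℂ} (ha0 : a ≠ 0) (ha1 : a ≠ 1) (hb0 : b ≠ 0) (hb1 : b ≠ 1) :
    BW (a * (1 - b) / (b * (1 - a))) - BW ((1 - b) / (1 - a)) + BW (b / a) - BW b + BW a = 0 :=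
  Pool.Agent.Helper46.BW.D_five ha0 ha1 hb0 hb1

end Pool.Agent.Helper87.EX
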