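import Pool.Agent.Helper24.EXJ.Prism

/-! Module J : jets of `HH F` at the diagonal (interface). Proofs in `Pool/Agent/Helper24/EXJ`. -/

set_option autoImplicit false

namespace Pool.Agent.Helper87.EX

open MeasureTheory Complex

theorem prism_jet {n : ℕ} {F : (Fin 5 → E n) → ℝ} (hG : GI F) (hA : Alter F) (hI : Inv F) :
    ∃ C : ℝ, ∀ ε ∈ Set.Ioc (0:ℝ) 1,
      |Pr (HH F) (aT ε) (fun i => emb (sg ε i))| ≤ C * ε ^ 5 := prism_jet' hG hA hI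

theorem prism_jet_cj {n : ℕ} {F : (Fin 5 → E n) → ℝ} (hG : GI F) (hA : Alter F) (hI : Inv F) :
    ∃ C : ℝ, ∀ ε ∈ Set.Ioc (0:ℝ) 1,
      |Pr (HH F) (aT ε) (fun i => emb (cj (sg ε i)))| ≤ C * ε ^ 5 := prism_jet_cj' hG hA hI

end Pool.Agent.Helper87.EX
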