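import Pool.Agent.Helper22.EXP.Prism

/-! Module P : prisms and the mirror lemma (interface). -/

set_option autoImplicit false

namespace Pool.Agent.Helper87.EX

open MeasureTheory Complex

/-- the mirror-odd part of the prism is additive -/
theorem prism_odd_add (c : (Fin 5 → G3) → ℝ) (hL : LInv c) (hd : ∀ x, dd c x = 0)
    (hU : ∀ x u : Fin 5 → G3, (∀ i, IsU (u i)) → c (fun i => x i * u i) = c x)
    (t t' : ℝ) (s : Fin 4 → Matrix.SpecialLinearGroup (Fin 2) ℂ) :
    Pr c (aT (t + t')) (fun i => emb (s i)) - Pr c (aT (t + t')) (fun i => emb (cj (s i)))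
      = (Pr c (aT t) (fun i => emb (s i)) - Pr c (aT t) (fun i => emb (cj (s i))))
        + (Pr c (aT t') (fun i => emb (s i)) - Pr c (aT t') (fun i => emb (cj (s i)))) :=
  Pool.Agent.Helper22.EXP.prism_odd_add c hL hd hU t t' s

end Pool.Agent.Helper87.EX
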