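import Pool.Agent.Helper11.EXS.Smooth

/-!
Module S : smoothing of an arbitrary bounded cochain.

The definitions `mat`, `nu`, `F2` and the theorems `F2_GI`, `F2_le`, `F2_inv`, `F2_alter` are in
`Pool.Agent.Helper11.EXS.Nu` (same namespace), and `smooth` is in
`Pool.Agent.Helper11.EXS.Smooth`.
-/

set_option autoImplicit false

namespace Pool.Agent.Helper87.EX

open MeasureTheory Complex
open scoped Classical

example {k : ℕ} (h' : (Fin k → G3) → ℝ) (hc : Continuous h') {C : ℝ} (hC : ∀ x, |h' x| ≤ C) :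
    GI (F2 h') := F2_GI h' hc hC

example {k : ℕ} (h' : (Fin k → G3) → ℝ) {C : ℝ} (hC : ∀ x, |h' x| ≤ C) (m : Fin k → E 3) :
    |F2 h' m| ≤ C := F2_le h' hC m

example {k : ℕ} (h' : (Fin k → G3) → ℝ) (hL : LInv h') : Inv (F2 h') := F2_inv h' hL

example {k : ℕ} (h' : (Fin k → G3) → ℝ) (hA : Alter h') : Alter (F2 h') := F2_alter h' hA

example (h' : (Fin 5 → G3) → ℝ) (hc : Continuous h') {C : ℝ} (hC : ∀ x, |h' x| ≤ C)
    (hb : ∀ x : Fin 6 → G3, dd h' x = dd (HH F1) x) (x : Fin 6 → G3) :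
    dd (HH (F2 h')) x = dd (HH F1) x := smooth h' hc hC hb x

end Pool.Agent.Helper87.EX
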