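import Pool.Agent.Helper87.EX.A
import Pool.Agent.Helper87.EX.C
import Pool.Agent.Helper71.EXW.W2
import Pool.Agent.Helper71.EXW.W9

/-! Module W : the averaged volume cocycle (statements; proofs in `Pool/Agent/Helper71/EXW`). -/

set_option autoImplicit false

namespace Pool.Agent.Helper87.EX

open MeasureTheory Complex

theorem Dbar_conj (s : Fin 4 → Matrix.SpecialLinearGroup (Fin 2) ℂ) :
    HH F3 (fun i => emb (cj (s i))) = -HH F3 (fun i => emb (s i)) :=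
  Pool.Agent.Helper71.EXW.Dbar_conj' s

theorem Dbar_jet : ∃ κ : ℝ, κ ≠ 0 ∧ ∃ C : ℝ, ∀ ε ∈ Set.Ioc (0:ℝ) 1,
    |HH F3 (fun i => emb (sg ε i)) - κ * ε ^ 3| ≤ C * ε ^ 4 :=
  Pool.Agent.Helper71.EXW.Dbar_jet'

end Pool.Agent.Helper87.EX
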