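import Pool.Agent.Helper87.EX.B
import Pool.Agent.Helper87.EX.J
import Pool.Agent.Helper87.EX.P
import Pool.Agent.Helper87.EX.Y
import Pool.Agent.Helper87.EX.W
import Pool.Agent.Helper87.EX.S

/-! Final assembly of project EX. -/

set_option autoImplicit false

namespace Pool.Agent.Helper87.EX

open MeasureTheory Complex Filter
open scoped Topology

/-! ### facts on `h = HH F1` -/

theorem F1_inv : Inv F1 := by
  intro g m
  unfold F1
  have h := Psi_act (g : Matrix (Fin 3) (Fin 3) ℂ) g.det_coe (fun i => m i 0)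
  rw [← h]
  rfl

theorem F1_alter : Alter F1 := by
  intro i j m hij
  exact Psi_alter i j (fun l => m l 0) hij

theorem h_cont : Continuous (HH F1) := HH_cont F1_GI

theorem h_inv : LInv (HH F1) := HH_left F1_inv

theorem dd_cont {n : ℕ} {X : Type*} [TopologicalSpace X] {F : (Fin n → X) → ℝ} (hF : Continuous F) :
    Continuous (dd F) := by
  unfold dd
  refine continuous_finset_sum _ fun i _ => ?_
  refine continuous_const.mul (hF.comp ?_)
  exact continuous_pi fun j => continuous_apply _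

theorem b_bdd : ∃ C : ℝ, ∀ x : Fin 6 → G3, |dd (HH F1) x| ≤ C := by
  obtain ⟨C, hC0, hC⟩ := T_bdd
  refine ⟨C, fun x => ?_⟩
  rw [HH_dd F1_GI x]
  refine HH_le ?_ x
  filter_upwards [ae_Gen 6] with m hm
  exact hC (fun i => m i 0) hm

theorem Alt_alter {n : ℕ} {X : Type*} (F : (Fin n → X) → ℝ) (a : ℝ) :
    Alter (fun w => a * Alt F w) := by
  intro i j m hij
  have h : Alt F (fun l => m (Equiv.swap i j l)) = -Alt F m := by
    unfold Alt
    rw [← Finset.sum_neg_distrib]
    refine Fintype.sum_equiv (Equiv.mulLeft (Equiv.swap i j)) _ _ fun σ => ?_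
    simp only [Equiv.coe_mulLeft, Equiv.Perm.sign_mul, Equiv.Perm.sign_swap hij, Equiv.Perm.mul_apply]
    push_cast
    ring
  simp only [h]
  ring

theorem Alt_cont {n : ℕ} {X : Type*} [TopologicalSpace X] {F : (Fin n → X) → ℝ}
    (hF : Continuous F) : Continuous (Alt F) := by
  unfold Alt
  refine continuous_finset_sum _ fun σ _ => ?_
  refine continuous_const.mul (hF.comp ?_)
  exact continuous_pi fun j => continuous_apply _

theorem Alt_inv {n : ℕ} {H : Type*} [Mul H] {F : (Fin n → H) → ℝ} (hF : LInv F) :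
    LInv (Alt F) := by
  intro g x
  unfold Alt
  refine Finset.sum_congr rfl fun σ _ => ?_
  rw [hF g (fun i => x (σ i))]

theorem Alt_le {n : ℕ} {X : Type*} {F : (Fin n → X) → ℝ} {C : ℝ} (hF : ∀ x, |F x| ≤ C)
    (x : Fin n → X) : |Alt F x| ≤ (n.factorial : ℝ) * C := by
  unfold Alt
  refine (Finset.abs_sum_le_sum_abs _ _).trans ?_
  refine (Finset.sum_le_card_nsmul _ _ C fun σ _ => ?_).trans ?_
  · rw [abs_mul]
    have h1 : |(((Equiv.Perm.sign σ : ℤˣ) : ℤ) : ℝ)| = 1 := by
      rcases Int.units_eq_one_or (Equiv.Perm.sign σ) with h | h <;> simp [h]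
    rw [h1, one_mul]
    exact hF _
  · rw [Finset.card_univ, Fintype.card_perm, Fintype.card_fin, nsmul_eq_mul]

theorem Pr_le {H : Type*} [Mul H] {c : (Fin 5 → H) → ℝ} {C : ℝ} (hc : ∀ x, |c x| ≤ C) (a : H)
    (s : Fin 4 → H) : |Pr c a s| ≤ 4 * C := by
  unfold Pr
  refine (Finset.abs_sum_le_sum_abs _ _).trans ?_
  refine (Finset.sum_le_card_nsmul _ _ C fun i _ => ?_).trans ?_
  · rw [abs_mul, abs_pow, abs_neg, abs_one, one_pow, one_mul]
    exact hc _
  · simp

theorem Pr_sub {H : Type*} [Mul H] (c c' : (Fin 5 → H) → ℝ) (a : H) (s : Fin 4 → H) :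
    Pr (fun x => c x - c' x) a s = Pr c a s - Pr c' a s := by
  unfold Pr
  rw [← Finset.sum_sub_distrib]
  exact Finset.sum_congr rfl fun i _ => by ring

theorem dd_sub {n : ℕ} {X : Type*} (c c' : (Fin n → X) → ℝ) (v : Fin (n + 1) → X) :
    dd (fun x => c x - c' x) v = dd c v - dd c' v := by
  unfold dd
  rw [← Finset.sum_sub_distrib]
  exact Finset.sum_congr rfl fun i _ => by ring

/-- an additive function of `t` with a linear growth rate is linear -/
theorem linear_of_additive {p : ℝ → ℝ} (hp : ∀ t t', p (t + t') = p t + p t') {L : ℝ}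
    (hL : Tendsto (fun T => p T / T) atTop (𝓝 L)) {t : ℝ} (ht : 0 < t) : p t = t * L := by
  have hn : ∀ n : ℕ, p ((n : ℝ) * t) = n * p t := by
    intro n
    induction n with
    | zero =>
      have h := hp 0 0
      simp only [add_zero] at h
      simp only [Nat.cast_zero, zero_mul]
      linarith
    | succ n ih =>
      have h := hp ((n : ℝ) * t) t
      push_cast
      rw [show ((n : ℝ) + 1) * t = (n : ℝ) * t + t by ring, h, ih]
      ring
  have h1 : Tendsto (fun n : ℕ => (n : ℝ) * t) atTop atTop :=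
    Tendsto.atTop_mul_const ht tendsto_natCast_atTop_atTop
  have h2 := hL.comp h1
  have h3 : (fun n : ℕ => p t / t) =ᶠ[atTop] ((fun T => p T / T) ∘ fun n : ℕ => (n : ℝ) * t) := by
    filter_upwards [eventually_ge_atTop 1] with n hn1
    have hn0 : (n : ℝ) ≠ 0 := by
      have : 0 < n := hn1
      exact_mod_cast this.ne'
    simp only [Function.comp, hn]
    field_simp
  have h4 : Tendsto (fun n : ℕ => p t / t) atTop (𝓝 L) := h2.congr' h3.symm
  have h5 := tendsto_nhds_unique tendsto_const_nhds h4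
  field_simp at h5
  linarith

/-- MAIN: the bounded cocycle `dd (HH F1)` is not the coboundary of a bounded cochain. -/
theorem main_core : ¬ ∃ h' : (Fin 5 → G3) → ℝ, Continuous h' ∧ LInv h' ∧
    (∃ C : ℝ, ∀ x, |h' x| ≤ C) ∧ ∀ x : Fin 6 → G3, dd h' x = dd (HH F1) x := by
  rintro ⟨h0, h0c, h0L, ⟨C0, h0C⟩, h0b⟩
  -- alternation
  set h' : (Fin 5 → G3) → ℝ := fun w => (1 / ((5 : ℕ).factorial : ℝ)) * Alt h0 w with hh'
  have hA0 : Alter (dd h0) := by
    have h : dd h0 = dd (HH F1) := funext h0b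
    rw [h]
    exact dd_alter _ (HH_alter F1_alter)
  have hb : ∀ x : Fin 6 → G3, dd h' x = dd (HH F1) x := by
    intro x
    rw [hh', alt_reduce h0 hA0 x, h0b x]
  have hc : Continuous h' := continuous_const.mul (Alt_cont h0c)
  have hL : LInv h' := by
    intro g x
    simp only [hh']
    rw [Alt_inv h0L g x]
  have hC : ∀ x, |h' x| ≤ C0 := by
    intro x
    simp only [hh']
    rw [abs_mul, abs_of_pos (by positivity)]
    have h1 := Alt_le h0C x
    have h2 : (0 : ℝ) < ((5 : ℕ).factorial : ℝ) := by positivity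
    rw [div_mul_eq_mul_div, one_mul, div_le_iff₀ h2]
    linarith
  have hA : Alter h' := Alt_alter h0 _
  -- smoothing
  set F : (Fin 5 → E 3) → ℝ := F2 h' with hF
  have FG : GI F := F2_GI h' hc hC
  have FI : Inv F := F2_inv h' hL
  have FA : Alter F := F2_alter h' hA
  have FC : ∀ x, |HH F x| ≤ C0 := HH_le (ae_of_all _ fun m => F2_le h' hC m)
  have Fb : ∀ x : Fin 6 → G3, dd (HH F) x = dd (HH F1) x := smooth h' hc hC hb
  set c : (Fin 5 → G3) → ℝ := fun x => HH F1 x - HH F x with hcdef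
  have cd : ∀ x, dd c x = 0 := by
    intro x
    rw [hcdef, dd_sub, Fb x, sub_self]
  have cL : LInv c := by
    intro g x
    simp only [hcdef]
    rw [HH_left F1_inv g x, HH_left FI g x]
  have cU : ∀ x u : Fin 5 → G3, (∀ i, IsU (u i)) → c (fun i => x i * u i) = c x := by
    intro x u hu
    simp only [hcdef]
    rw [HH_right x u hu, HH_right x u hu]
  -- the odd part of the prism
  set p : (Fin 4 → Matrix.SpecialLinearGroup (Fin 2) ℂ) → ℝ → ℝ := fun s t =>
    Pr c (aT t) (fun i => emb (s i)) - Pr c (aT t) (fun i => emb (cj (s i))) with hp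
  have padd : ∀ s t t', p s (t + t') = p s t + p s t' := fun s t t' =>
    prism_odd_add c cL cd cU t t' s
  have prc : ∀ (s : Fin 4 → Matrix.SpecialLinearGroup (Fin 2) ℂ),
      Tendsto (fun T : ℝ => Pr c (aT T) (fun i => emb (s i)) / T) atTop
        (𝓝 (-2 * HH F3 (fun i => emb (s i)))) := by
    intro s
    have h1 := growth s
    have h2 : Tendsto (fun T : ℝ => Pr (HH F) (aT T) (fun i => emb (s i)) / T) atTop (𝓝 0) := by
      have h3 : Tendsto (fun T : ℝ => (4 * C0) / T) atTop (𝓝 0) :=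
        tendsto_const_nhds.div_atTop tendsto_id
      refine squeeze_zero_norm' ?_ h3
      filter_upwards [eventually_gt_atTop 0] with T hT
      rw [Real.norm_eq_abs, abs_div, abs_of_pos hT]
      exact div_le_div_of_nonneg_right (Pr_le FC _ _) hT.le
    have h4 := h1.sub h2
    rw [sub_zero] at h4
    refine h4.congr fun T => ?_
    rw [hcdef, Pr_sub]
    ring
  have plim : ∀ s, Tendsto (fun T : ℝ => p s T / T) atTop
      (𝓝 (-4 * HH F3 (fun i => emb (s i)))) := by
    intro s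
    have h1 := (prc s).sub (prc (fun i => cj (s i)))
    rw [Dbar_conj s] at h1
    have h2 : -2 * HH F3 (fun i => emb (s i)) - -2 * -HH F3 (fun i => emb (s i))
        = -4 * HH F3 (fun i => emb (s i)) := by ring
    rw [h2] at h1
    refine h1.congr fun T => ?_
    simp only [hp]
    ring
  have plin : ∀ s (t : ℝ), 0 < t → p s t = t * (-4 * HH F3 (fun i => emb (s i))) := fun s t ht =>
    linear_of_additive (padd s) (plim s) ht
  -- jets
  obtain ⟨A1, hA1⟩ := prism_jet F1_GI F1_alter F1_inv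
  obtain ⟨A2, hA2⟩ := prism_jet_cj F1_GI F1_alter F1_inv
  obtain ⟨A3, hA3⟩ := prism_jet FG FA FI
  obtain ⟨A4, hA4⟩ := prism_jet_cj FG FA FI
  obtain ⟨κ, hκ, B, hB⟩ := Dbar_jet
  have key : ∀ ε ∈ Set.Ioc (0:ℝ) 1, 4 * |κ| ≤ (A1 + A2 + A3 + A4 + 4 * B) * ε := by
    intro ε hε
    have h1 := plin (sg ε) ε hε.1
    have h2 : |p (sg ε) ε| ≤ (A1 + A2 + A3 + A4) * ε ^ 5 := by
      have e1 : p (sg ε) ε = Pr (HH F1) (aT ε) (fun i => emb (sg ε i))
          - Pr (HH F) (aT ε) (fun i => emb (sg ε i))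
          - (Pr (HH F1) (aT ε) (fun i => emb (cj (sg ε i)))
          - Pr (HH F) (aT ε) (fun i => emb (cj (sg ε i)))) := by
        simp only [hp, hcdef]
        rw [Pr_sub, Pr_sub]
      rw [e1]
      have a1 := hA1 ε hε
      have a2 := hA2 ε hε
      have a3 := hA3 ε hε
      have a4 := hA4 ε hε
      rw [abs_le] at a1 a2 a3 a4 ⊢
      constructor <;> nlinarith [a1.1, a1.2, a2.1, a2.2, a3.1, a3.2, a4.1, a4.2]
    have h3 := hB ε hε
    have h4 : 4 * ε * |HH F3 (fun i => emb (sg ε i))| ≤ (A1 + A2 + A3 + A4) * ε ^ 5 := by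
      have h5 : |p (sg ε) ε| = 4 * ε * |HH F3 (fun i => emb (sg ε i))| := by
        rw [h1, abs_mul, abs_mul, abs_of_pos hε.1]
        norm_num
        ring
      rw [← h5]
      exact h2
    have h6 : |κ| * ε ^ 3 ≤ |HH F3 (fun i => emb (sg ε i))| + B * ε ^ 4 := by
      have h7 : |κ * ε ^ 3| ≤ |HH F3 (fun i => emb (sg ε i))|
          + |HH F3 (fun i => emb (sg ε i)) - κ * ε ^ 3| := by
        have h8 : κ * ε ^ 3 = HH F3 (fun i => emb (sg ε i))
            - (HH F3 (fun i => emb (sg ε i)) - κ * ε ^ 3) := by ring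
        calc |κ * ε ^ 3| = |HH F3 (fun i => emb (sg ε i))
            - (HH F3 (fun i => emb (sg ε i)) - κ * ε ^ 3)| := by rw [← h8]
          _ ≤ _ := abs_sub _ _
      rw [abs_mul, abs_of_pos (pow_pos hε.1 3)] at h7
      linarith
    have hε4 : 0 < ε ^ 4 := pow_pos hε.1 4
    have h9 : 4 * |κ| * ε ^ 4 ≤ (A1 + A2 + A3 + A4 + 4 * B) * ε * ε ^ 4 := by
      have h10 := mul_le_mul_of_nonneg_left h6 (by linarith [hε.1] : (0:ℝ) ≤ 4 * ε)
      nlinarith
    exact le_of_mul_le_mul_right h9 hε4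
  -- contradiction as ε → 0
  have hκ' : 0 < 4 * |κ| := by positivity
  have hM := key 1 ⟨one_pos, le_refl 1⟩
  rw [mul_one] at hM
  set M := A1 + A2 + A3 + A4 + 4 * B with hMdef
  have hMpos : 0 < M := lt_of_lt_of_le hκ' hM
  have hε : (4 * |κ|) / (2 * M) ∈ Set.Ioc (0:ℝ) 1 := by
    refine ⟨by positivity, ?_⟩
    rw [div_le_one (by positivity)]
    linarith
  have h := key _ hε
  have h2 : M * ((4 * |κ|) / (2 * M)) = 2 * |κ| := by
    field_simp
    ring
  rw [h2] at h
  have : 0 < |κ| := abs_pos.mpr hκ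
  linarith

/-- The comparison map is not injective in degree `5` (own form). -/
theorem main : ∃ b : (Fin 6 → G3) → ℝ, Continuous b ∧ LInv b ∧ (∃ C : ℝ, ∀ x, |b x| ≤ C) ∧
    (∃ h : (Fin 5 → G3) → ℝ, Continuous h ∧ LInv h ∧ ∀ x, b x = dd h x) ∧
    ¬ ∃ h' : (Fin 5 → G3) → ℝ, Continuous h' ∧ LInv h' ∧ (∃ C : ℝ, ∀ x, |h' x| ≤ C) ∧
      ∀ x, b x = dd h' x := by
  refine ⟨dd (HH F1), dd_cont h_cont, ?_, b_bdd, ⟨HH F1, h_cont, h_inv, fun _ => rfl⟩, ?_⟩
  · intro g x
    unfold dd
    refine Finset.sum_congr rfl fun i _ => ?_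
    rw [h_inv g (fun j => x (i.succAbove j))]
  · rintro ⟨h', h1, h2, h3, h4⟩
    exact main_core ⟨h', h1, h2, h3, fun x => (h4 x).symm⟩

end Pool.Agent.Helper87.EX
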