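import Pool.Agent.Helper87.EX.Fin

/-! The frozen negation from the main theorem and the Lie group packaging. -/

set_option autoImplicit false
open scoped Manifold ContDiff

namespace Pool.Agent.Helper87.EX

/-- The core of the refutation, for the topological group `SL_3(ℂ)` only: the injectivity half
in degree `5`. -/
theorem not_inj_five :
    ¬ (∀ b : (Fin (4 + 2) → G3) → ℝ, Continuous b →
        (∀ (g : G3) (x : Fin (4 + 2) → G3), b (fun j => g * x j) = b x) →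
        (∃ C : ℝ, ∀ x : Fin (4 + 2) → G3, |b x| ≤ C) →
        (∃ h : (Fin (4 + 1) → G3) → ℝ, Continuous h ∧
            (∀ (g : G3) (x : Fin (4 + 1) → G3), h (fun j => g * x j) = h x) ∧
            ∀ x : Fin (4 + 2) → G3,
              b x = ∑ i : Fin (4 + 2), (-1 : ℝ) ^ (i : ℕ) * h (fun j => x (Fin.succAbove i j))) →
        ∃ h' : (Fin (4 + 1) → G3) → ℝ, Continuous h' ∧
            (∀ (g : G3) (x : Fin (4 + 1) → G3), h' (fun j => g * x j) = h' x) ∧
            (∃ C : ℝ, ∀ x : Fin (4 + 1) → G3, |h' x| ≤ C) ∧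
            ∀ x : Fin (4 + 2) → G3,
              b x = ∑ i : Fin (4 + 2), (-1 : ℝ) ^ (i : ℕ) * h' (fun j => x (Fin.succAbove i j))) := by
  intro H
  obtain ⟨b, hc, hL, hb, ⟨h, h1, h2, h3⟩, hn⟩ := main
  obtain ⟨h', k1, k2, k3, k4⟩ := H b hc hL hb ⟨h, h1, h2, h3⟩
  exact hn ⟨h', k1, k2, k3, k4⟩

/-- the frozen negation, from a packaging of `SL_3(ℂ)` as a Lie group -/
theorem frozen_of_pack
    (cs : ChartedSpace (EuclideanSpace ℝ (Fin 16)) G3)
    (lg : LieGroup 𝓘(ℝ, EuclideanSpace ℝ (Fin 16)) ∞ G3)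
    (hconn : ConnectedSpace G3) (hcomp : ¬ CompactSpace G3) (hfin : Finite (Subgroup.center G3))
    (hss : LieAlgebra.IsSemisimple ℝ
      (LeftInvariantDerivation 𝓘(ℝ, EuclideanSpace ℝ (Fin 16)) G3)) :
    ¬ (∀ (n : ℕ) (G : Type) [TopologicalSpace G] [Group G]
    [ChartedSpace (EuclideanSpace ℝ (Fin n)) G]
    [LieGroup 𝓘(ℝ, EuclideanSpace ℝ (Fin n)) ∞ G],
    ConnectedSpace G → ¬ CompactSpace G → Finite (Subgroup.center G) →
    LieAlgebra.IsSemisimple ℝ (LeftInvariantDerivation 𝓘(ℝ, EuclideanSpace ℝ (Fin n)) G) →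
    ∀ k : ℕ,
      (∀ f : (Fin (k + 2) → G) → ℝ, Continuous f →
        (∀ (g : G) (x : Fin (k + 2) → G), f (fun j => g * x j) = f x) →
        (∀ x : Fin (k + 3) → G,
          ∑ i : Fin (k + 3), (-1 : ℝ) ^ (i : ℕ) * f (fun j => x (Fin.succAbove i j)) = 0) →
        ∃ b : (Fin (k + 2) → G) → ℝ, Continuous b ∧
          (∀ (g : G) (x : Fin (k + 2) → G), b (fun j => g * x j) = b x) ∧
          (∃ C : ℝ, ∀ x : Fin (k + 2) → G, |b x| ≤ C) ∧
          ∃ h : (Fin (k + 1) → G) → ℝ, Continuous h ∧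
            (∀ (g : G) (x : Fin (k + 1) → G), h (fun j => g * x j) = h x) ∧
            ∀ x : Fin (k + 2) → G,
              f x = b x + ∑ i : Fin (k + 2), (-1 : ℝ) ^ (i : ℕ) * h (fun j => x (Fin.succAbove i j))) ∧
      (∀ b : (Fin (k + 2) → G) → ℝ, Continuous b →
        (∀ (g : G) (x : Fin (k + 2) → G), b (fun j => g * x j) = b x) →
        (∃ C : ℝ, ∀ x : Fin (k + 2) → G, |b x| ≤ C) →
        (∃ h : (Fin (k + 1) → G) → ℝ, Continuous h ∧
            (∀ (g : G) (x : Fin (k + 1) → G), h (fun j => g * x j) = h x) ∧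
            ∀ x : Fin (k + 2) → G,
              b x = ∑ i : Fin (k + 2), (-1 : ℝ) ^ (i : ℕ) * h (fun j => x (Fin.succAbove i j))) →
        ∃ h' : (Fin (k + 1) → G) → ℝ, Continuous h' ∧
            (∀ (g : G) (x : Fin (k + 1) → G), h' (fun j => g * x j) = h' x) ∧
            (∃ C : ℝ, ∀ x : Fin (k + 1) → G, |h' x| ≤ C) ∧
            ∀ x : Fin (k + 2) → G,
              b x = ∑ i : Fin (k + 2), (-1 : ℝ) ^ (i : ℕ) * h' (fun j => x (Fin.succAbove i j)))) := by
  intro H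
  exact not_inj_five (H 16 G3 hconn hcomp hfin hss 4).2

end Pool.Agent.Helper87.EX
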