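import Mathlib

/-!
# The comparison map H_cb^5(SL_3(C)) -> H_c^5(SL_3(C)) is not injective. Complete proof.

Notation. `dt(a,b,c)` = determinant of three vectors of C^3; D = `BW` = Bloch-Wigner dilogarithm
(D(x) = 0 for x real, D(1/z) = D(1-z) = D(conj z) = -D(z), D > 0 on the upper half plane, D bounded,
D(z) log|z| bounded, continuous off {0,1}, five term relation). `b2(x,y) = x1 y2 - x2 y1`.
For vectors: `VV e a b c d` = D(dt(e,a,c) dt(e,b,d) / (dt(e,a,d) dt(e,b,c))) = D of the cross ratio of
a, b, c, d seen from e: alternating in a, b, c, d, scale invariant in every vector, invariant under GL_3.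
`LL a b c = log|dt(a,b,c)|`. For a function F of k variables, (dd F)(v_0..v_k) = sum (-1)^i F(.. v_i omitted ..).
G = SL_3(C), K = SU(3).

## 1. Psi and T = dd Psi.

For five vectors put D_p = VV(v_p; the four others in order) and
  Psi(v) = -(1/3) sum_{p<q} ((-1)^p D_p + (-1)^q D_q) log|dt(the three vectors different from v_p, v_q)|
         = -(1/18) Alt_5 [ VV(v_0; v_1, v_2, v_3, v_4) LL(v_2, v_3, v_4) ].
(Second form: in the sum over sigma the vector sigma0 = p contributes (-1)^p D_p, and the three vectors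
sigma2, sigma3, sigma4 avoid p and q = sigma1; each pair (p,q) occurs 6 times.)
Psi is alternating and invariant under SL_3(C).
CONIC RELATION: sum_p (-1)^p D_p = 0 (all dt nonzero). Proof: put [l m] = +- dt(the three other vectors);
these are the brackets of five vectors of C^2 (Gale dual), they satisfy the Pluecker relations, the cross
ratio seen from v_p is the cross ratio of the four other dual vectors: five term relation.
T = dd Psi = -(1/18) Alt_6 [ VV(v_1; v_2, v_3, v_4, v_5) LL(v_3, v_4, v_5) ], because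
dd (Alt_5 F) = Alt_6 (F o tail).

THEOREM 1 (Goncharov). If all dt(v_i, v_j, v_k) are nonzero then
  T = (1/90) Alt_6 [ D(r) log|r| ],  r = r_3(a,b,c;d,e,f) = dt(abd) dt(bce) dt(caf) / (dt(abe) dt(bcf) dt(cad)),
(a,b,c,d,e,f) = (v_0..v_5). Hence |T| <= 8 sup |D(z) log|z||, and T depends only on the points of P^2(C).
Proof. Write R(a,b,c;d,e,f) = D(r_3). Six of the 720 terms coincide up to the same sign, log|r| is a sum of
six LL's, which are permuted transitively (up to sign) by the symmetries a->b->c, d->e->f and (ab)(de)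
of r (r -> 1/r): hence Alt[R log|r|] = 6 Alt[ LL(abd) R(a,b,c;d,e,f) ].
 Let O = dt(a,b,e) d - dt(d,b,e) a = dt(a,d,e) b + dt(a,b,d) e (intersection of the lines ad and be). Then
 dt(c,a,O) = dt(a,b,e) dt(c,a,d), dt(c,d,O) = dt(d,b,e) dt(c,a,d), dt(c,b,O) = dt(a,b,d) dt(c,b,e), hence
   VV c a b f O = R(a,b,c;d,e,f),  VV c d b f O = R(d,b,c;a,e,f),
   VV c a b d O = VV b a c d e,    VV c a d f O = VV f a d c O  (symmetric in c and f).
 Five term relation at c for (a,b,d,f,O) (valid also when dt(c,f,O) = 0):
   R(a,b,c;d,e,f) - R(d,b,c;a,e,f) = VV c a d f O + VV b a c d e - VV c a b d f.            (I)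
 Multiply by LL(a,b,d) and alternate: the left side gives 2 Alt[LL(abd) R] (exchange a and d); the first term
 on the right dies (exchange c and f). Conic relation for (a,b,d,c,e) times LL(abd), alternated, gives
 3 Alt[LL(abd) VV b a d c e] = 2 Alt[LL(abd) VV c a b d e] up to signs, and everything is a multiple of
 Alt[LL(abd) VV c a b d e], i.e. of T. (Constant 1/90 checked numerically; for boundedness only SOME
 non zero relation T = const * Alt[R log|r|] is needed.)

## 2. The cochains.

`E n` = n columns of C^3; gam = standard Gaussian probability on `E n` with density rho(m) = exp(-|m|^2)/Z.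
For F : (E n)^k -> R put (HH F)(g_1..g_k) = E F(g_1 m_1, ..., g_k m_k), m_i independent Gaussian.
By change of variables (det g = 1 preserves Lebesgue measure) HH F (g) = int F(m) prod rho(g_i^{-1} m_i) dm.
 (a) F invariant => HH F left invariant;  (b) HH F (g_i u_i) = HH F (g_i) for u_i in SU(3);
 (c) HH F continuous if F is integrable against all Gaussian weights (GI F);  (d) dd (HH F) = HH (dd F);
 (e) F alternating => HH F alternating.
GI Psi holds: |Psi| <= C sum |log|dt||, |log x| <= x + 2 x^(-1/2), and dt is linear in each variable.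
Let F1 = Psi (n = 1), h = HH F1 : G^5 -> R, b = dd h = HH (dd Psi) : G^6 -> R. Then h, b are continuous and
left invariant and b is BOUNDED by Theorem 1 (the non generic 6-tuples have measure zero).

## 3. Suppose b = dd h' with h' : G^5 -> R continuous, left invariant, bounded.

We may assume h' alternating (replace h' by Alt h'/120; b is alternating). For m in M_3(C) invertible put
nu(m) = m / (det m)^(1/3) in G (principal branch): nu(g m) = g nu(m) for g in G.
F2(m_0..m_4) = h'(nu(m_0), .., nu(m_4)) (0 if some m_i is singular), n = 3. Let h'' = HH F2: bounded.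
dd h'' = HH (dd F2) = E b(nu(g_i m_i)) = E b(g_i nu(m_i)) = E_m E_w T(g_i nu(m_i) w_i) = E_m E_w T(g_i m_i w_i)
(T is scale invariant) and, w_i being fixed, m_i w_i / |w_i| is a standard Gaussian vector, so this is
E T(g_i w_i) = b. So c := h - h'' satisfies dd c = 0; c is left invariant, right K-invariant, alternating.

## 4. Jets.

Let F be alternating and GI, g_j(eps) in G with | |g_j(eps)^{-1} y|^2 - |y|^2 + 2 eps <y, Y_j y> | <= C eps^2 |y|^2.
Since HH F vanishes when two arguments coincide,
 HH F(1, g_1, .., g_r) = int F rho(m_0) prod (rho(g_j^{-1} m_j) - rho(m_j)) dm = eps^r w_F(Y_1..Y_r) + O(eps^(r+1)),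
 w_F(Y_1..Y_r) = int F(m) rho(m_0) prod_j 2 <m_j, Y_j m_j> rho(m_j) dm.
w_F is real multilinear, alternating, and invariant under Y_j -> u Y_j u^{-1}, u in SU(3) (F invariant).
LEMMA 2 (Lambda^4 su(3)^* has no invariants). Let w be a real 4-linear alternating function of 3x3 complex
matrices, invariant under conjugation by the five matrices P (cyclic permutation), p = diag(1,i,-i),
p' = diag(-1,1,-1), Q = [[0,1,0],[-1,0,0],[0,0,1]], R = [[3/5,-4/5,0],[4/5,3/5,0],[0,0,1]].
Then w(X23, Y23, H2, 2 H1 + H2) = 0, where Xjk = Ejk + Ekj, Yjk = -i Ejk + i Ekj, H1 = diag(1,-1,0),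
H2 = diag(0,1,-1) (so 2 H1 + H2 = diag(2,-1,-1)).
Proof. x(H) = w(H, X12, X23, Y13) satisfies w(H, Y12, X23, X13) = -x(H) (conjugate by p) and x(H) = x(P H P^-1)
(P maps X12 -> X23, X23 -> X13, Y13 -> -Y12), so x(H1) = x(H2) = x(-H1-H2) and x = 0. Next apply R to
w(H1, H2, X23, Y13): H2 = -(1/2) H1 + (1/2) A3 with A3 = diag(1,1,-2) fixed by R, H1 -> cos2t H1 - sin2t X12 (up to
the sign of t), X23 -> cos t X23 + sin t X13, Y13 -> cos t Y13 - sin t Y23; all terms vanish by p^2, p' and x = 0 except
(1/2) cos2t cos t sin t (w(H1,A3,X13,Y13) - w(H1,A3,X23,Y23)) = 0. Conjugation by Q gives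
w(H1,H2,X13,Y13) = -w(H1,H2,X23,Y23). Hence w(H1,H2,X23,Y23) = 0.

## 5. Prisms.

S = SL_2(C) embedded as the lower right block, a(t) = diag(e^(2t), e^(-t), e^(-t)), which commutes with S.
P_t(s_0..s_3) = sum_{i=0}^3 (-1)^i c(s_0, .., s_i, a(t) s_i, .., a(t) s_3), s_j in S.
 (i) P_{t+t'} = P_t + P_{t'} + dd Q, Q(s_0,s_1,s_2) = sum_{i<=j} +- c(s_0..s_i, a s_i..a s_j, a a' s_j..a a' s_2)
     (cocycle relation and left invariance); Q is left S-invariant and right SU(2)-invariant.
 (ii) MIRROR LEMMA: for s_0, s_1, s_2 in S there are g in S, k_j in SU(2) with conj(s_j) = g s_j k_j.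
     (x_j = s_j s_j^* ; choose a Hermitian N with det N = -1, orthogonal to the three x_j for the polar form of
     det; then N adj(x_j) N = x_j; conj(x) = E_2 adj(x) E_2, so g = E_2 adj(N) has g x_j g^* = conj(x_j).)
     Hence (dd Q)(conj s) = (dd Q)(s), and P_t^-(s) := P_t(s) - P_t(conj s) is additive in t.
 (iii) so P_t^-(s) = lim_n P_{nt}^-(s)/n; the contribution of h'' is bounded, so
     P_t^-(s) = t lim_{T->oo} (P_T[h](s) - P_T[h](conj s))/T.

## 6. Growth. lim_{T->oo} P_T[h](s)/T = -2 Dbar(s), Dbar = HH F3, F3(y) = D(cross ratio of the four vectors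
(y_j 1, y_j 2) of C^2), for s in S^4.
Proof. The five vectors of the i-th simplex are v_0..v_i, a v_{i+1}, .., a v_4 with v independent, v_j = s N_j: write
v = (v^0, v'), v^0 = N^0 (S acts on the last two coordinates). log|dt| of a triple with r of its members
among the last ones (those multiplied by a) = rate * T + O(1) in L^1, uniformly in T, where rate = 0, 2, 1, 0 for
r = 0, 1, 2, 3:  e^{-rate T} dt is a linear function of some v_c^0, with coefficient +-b2(v_i', v_j') for two other
members, and E|z + b|^(-1/2) <= C, E|coefficient|^(-1/2) < oo. D is bounded, so only the rates matter: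
 P_T[h](s)/T = sum_i (-1)^i E[ -(1/3) sum_{p<q} ((-1)^p D_p + (-1)^q D_q) rate(comp(p,q)) ] + O(1/T).
 By the conic relation the i-th bracket is: i = 3: +2 D_4; i = 2: 0; i = 1: D_0 - D_1; i = 0: + D_0 (all computed
 with sum (-1)^p D_p = 0). As T -> oo: for i = 3, D_4 -> D(v_0', .., v_3'). For i = 0 D_0 -> D(z_1,z_2,z_3,z_4) and
 for i = 1 D_0 -> D(oo,z_2,z_3,z_4), z_c = b2(v_0', v_c')/v_c^0 (same for D_1 with v_1'). The v_c^0 are independent
 with rotation invariant law: replacing z_c by conj(z_c) preserves the law and changes the sign of D, so these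
 expectations vanish in the limit. Total: (-1)^3 * 2 * E D(v_0'..v_3').

## 7. Contradiction.

s = sigma_eps = (1, exp(eps E_1), exp(eps E_2), exp(eps E_3)), t = eps. By 5, 6 and D(conj) = -D:
   P_eps^-(sigma_eps) = -4 eps Dbar(sigma_eps).
By 4 (for F1 and F2) |P_eps(sigma_eps)| = O(eps^5): the leading term is 4 eps^4 (w_{F1} - w_{F2})(A, E_1, E_2, E_3) = 0.
Again by the expansion of 4 (three variables) Dbar(sigma_eps) = kappa eps^3 + O(eps^4),
   kappa = 8 int D(y_0'..y_3') <y_1', E_1 y_1'> <y_2', E_2 y_2'> <y_3', E_3 y_3'> prod rho(y_j) dy.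
kappa is not 0: let t_j = |y_j'|^2 and xi_j = (<y_j',E_k y_j'>)_{k=1,2,3}. By scaling of y_0' (D invariant),
int D t_0 (...) = 2 int D (...), so by alternation 48 kappa / 8 = int D det[(t_j, xi_j)]_{j=0..3} prod rho, and
det[(t_j, xi_j)] is a positive multiple (with constant sign) of Im( b2(y0,y2) b2(y1,y3) conj(b2(y0,y3) b2(y1,y2)) ),
which has the sign of D. So 4 eps |Dbar| >= 2 |kappa| eps^4 contradicts O(eps^5).
-/
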